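import Pool.Agent.Helper66.SB.GoalsB

/-!
# Project SB, packet AD: adding simple points
-/

set_option autoImplicit false

open Module MvPolynomial

namespace Pool.Agent.Helper85.SB

open Pool.Agent.Helper66.SB Helper18.Shgh

theorem gAD : G_AD := by
  intro s x d a P0
  let m : ℕ → ℕ := fun i => if h : i < s then a ⟨i, h⟩ else 1
  let P : ℕ → Fin 2 → ℂ := fun i => if h : i < s then P0 ⟨i, h⟩ else 0
  have hd : Disjoint (Finset.range s) (Finset.Ico s (s + x)) := by
    rw [Finset.disjoint_left]
    intro i hi hj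
    rw [Finset.mem_range] at hi
    rw [Finset.mem_Ico] at hj
    omega
  have hF : ∀ i ∈ Finset.Ico s (s + x), m i = 1 := by
    intro i hi
    rw [Finset.mem_Ico] at hi
    simp only [m, dif_neg (show ¬ i < s by omega)]
  obtain ⟨P', hP'⟩ := add_simples (d := d) (P := P) (m := m) (Finset.Ico s (s + x)) hd hF
  refine ⟨fun i => P' i, ?_⟩
  have h1 : SP (d : ℤ) Finset.univ (fun i : Fin (s + x) => P' i) (Fin.append a fun _ => 1) ≤
      SP (d : ℤ) (Finset.range s ∪ Finset.Ico s (s + x)) P' m := by
    intro G hG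
    rw [mem_SP] at hG ⊢
    refine ⟨hG.1, fun i hi => ?_⟩
    rw [Finset.mem_union, Finset.mem_range, Finset.mem_Ico] at hi
    have hi' : i < s + x := by omega
    have h2 := hG.2 ⟨i, hi'⟩ (Finset.mem_univ _)
    have h3 : Fin.append a (fun _ => 1) ⟨i, hi'⟩ = m i := by
      by_cases h : i < s
      · have : (⟨i, hi'⟩ : Fin (s + x)) = Fin.castAdd x ⟨i, h⟩ := rfl
        rw [this, Fin.append_left]
        simp only [m, dif_pos h]
      · have : (⟨i, hi'⟩ : Fin (s + x)) = Fin.natAdd s ⟨i - s, by omega⟩ := by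
          apply Fin.ext
          simp
          omega
        rw [this, Fin.append_right]
        simp only [m, dif_neg h]
    rw [h3] at h2
    exact h2
  have h2 : SP (d : ℤ) (Finset.range s) P m ≤ SP (d : ℤ) Finset.univ P0 a := by
    intro G hG
    rw [mem_SP] at hG ⊢
    refine ⟨hG.1, fun i _ => ?_⟩
    have h3 := hG.2 i (Finset.mem_range.2 i.2)
    simp only [P, m, dif_pos i.2] at h3
    exact h3
  have h3 := Submodule.finrank_mono h1
  have h4 := Submodule.finrank_mono h2
  rw [Nat.card_Ico] at hP'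
  omega

end Pool.Agent.Helper85.SB
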